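import Mathlib
import Pool.Agent.Y649.DG.Main
import Pool.Agent.Y649.DG.Incl
import Pool.Agent.Q330.DG.MP

/-!
# Shortest paths: formulas with determinant gates

A directed graph has three layers of `n` vertices and the edge weights `A i k` (first to second
layer), `B k j` (second to third layer) and `C i j` (first to third layer), integers in
`{1, …, n + 1}`. Is some edge `i → j` longer than a path `i → k → j`? The items of the input are the
weights of all edges at `i`, for each vertex `i` of the first layer, and the matrix `B`.

A formula (`Fml`) is built from real constants, arbitrary real functions of one item, and arbitrary real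
functions of `w` words, where each word is a function of one item with `q` values, by the gates

* `pos`: is the value positive? (`1` or `0`),
* `sym`: any fan-in, any real function of the number of positive inputs,
* `det`: the determinant of a real matrix of any order whose entries are formulas (sums and products
  are determinants of order two),
* `reg`: is the matrix over an arbitrary field `K`, of any order, whose entry `(a, b)` is `c' a b` or
  `c a b`, according to whether the formula `(a, b)` is positive or not, regular? (`1` or `0`).

The size is the number of the leaves which are not constants, plus the number of wires which lead to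
gates `sym`. So constants and the orders of the matrices are free. The formula accepts if its value is
positive. Such formulas contain (without increase in size) the nondeterministic networks whose edges
are guarded by real formulas, and these may be nested.

We show that random formulas of size at most `s` with error probability at most `1 / 3` need
`n ^ 4 ≤ 16 * 10 ^ 6 c w ^ 3 s ^ 2` if the words have `c log₂ n` bits, that is, size of order `n ^ 2`
for an input which consists of `n + 1` items.

Proof. The edges at a vertex of the first layer can ask for about `n ^ 2 log₂ n` bits of the matrix `B`
(`Pool.Agent.Y638.RF.MinPlus.asks`). If `r` leaves see an item, then the other parts of the formula enter a determinant with `r` live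
entries only through `O (r ^ 2)` numbers (Schur complement), so `2 ^ O (r ^ 2 log n)` functions of the
item arise when the other items are fixed (Warren's theorem, and the theorem of Rónyai, Babai and
Ganapathy for the fields `K`; `Pool.Agent.Y649.DG.bound`).
-/

set_option autoImplicit false

namespace Pool.Agent.Results.MP_885423_lc.DeterminantGates

open Pool.Agent.TH697.Form (IsProb)
open Pool.Agent.TH697.Row (ApproximatesOn)
open Pool.Agent.TH697.Form.MinPlus (Item InRange shortcut)
open Pool.Agent.Y638.RF (Net)
open Pool.Agent.Y649.DG (Fml)

theorem result :
    (∀ n c w : ℕ, 32 ≤ n → 1 ≤ c → 1 ≤ w →
      ∀ (Ω : Type) [Fintype Ω] (μ : Ω → ℝ), IsProb μ →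
      ∀ (s : ℕ) (F : Ω → Fml (Option (Fin n)) (Item n) w (n ^ c)),
        (∀ ω, (F ω).size ≤ s) →
        ApproximatesOn μ (fun ω => (F ω).accepts) (InRange n (n + 1)) (shortcut n) →
        (n : ℝ) ^ 4 ≤ 16000000 * c * w ^ 3 * s ^ 2) ∧
    (∀ (ι : Type) (D : ι → Type) (w q : ℕ) (N : Net ι D w q),
      ∃ F : Fml ι D w q, F.size ≤ N.size ∧ ∀ x, F.accepts x = N.eval x) :=
  ⟨fun n c w hn hc hw Ω _ μ hμ s F hs hF =>
    Pool.Agent.Q330.DG.MP.minplus Pool.Agent.Y649.DG.bound n c w hn hc hw Ω μ hμ s F hs hF,
    fun _ _ _ _ N => Pool.Agent.Y649.DG.exists_of_net N⟩

end Pool.Agent.Results.MP_885423_lc.DeterminantGates
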