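import Pool.Agent.Q330.FD.Apsp

/-!
# Verifying shortest paths needs many reads or much memory

We consider Boolean circuits with AND gates of fan-in two, OR gates of any fan-in and negations at
the inputs, whose inputs are the bits of the weights of a complete graph with `n` vertices. Such a
circuit accepts if and only if it has a proof tree all of whose leaves are true literals; the formal
degree in an input bit is the largest number of leaves with this bit, that is, the number of times
this bit is read. Nondeterministic, in particular deterministic, branching programs are such
circuits (the logarithm of the size is the memory, and a bit which is read at most `k` times on every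
path has degree at most `k`), and so are programs with a stack; a proof tree of a circuit may even
read any part of the input again and again in its branches.

The circuits have to recognise the graphs in which every edge is a shortest path, that is, the
matrices which are equal to their matrices of distances. It is enough that they are right on
the weights `2`, `3`, `4`, `5`. (The other graphs are recognised by a disjunction of small
conjunctions, each of which reads the bits of three weights once.) Checking all triples is a circuit
of polynomial size and formal degree `n - 2` in each bit. We show that the size is `2 ^ Ω (n)` if the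
degrees in the last bits of the weights sum up to `O (n ^ 2)`, while all the other bits may be read as
often as one likes. So algorithms of this kind with a memory of `o (n)` bits must read the last bits
of the weights more than a constant number of times on average, and with a memory of `O (log n)` bits
they must read them `Ω (log n)` times. The statement holds for each vertex separately: it is enough
that the degrees in the last bits of the weights at one vertex sum up to at most `k n`; and then it
remains true for circuits with one-sided randomness.

The hard instances: at the vertex `u` the weights are `2` and `3`, the pairs of a hidden matching on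
the other vertices have the weight `5` and all other pairs the weight `4`.
-/

set_option autoImplicit false

namespace Pool.Agent.Results.MP_885423_lc.FormalDegree

open Pool.Agent.W896.RK Pool.Agent.W896.FD Pool.Agent.Q330.FD.Apsp

/-- `(e, j)` is the bit of the weight of the pair `e` with the value `2 ^ j`, `j ≤ w`.

1. Let `u` be a vertex and `U r` (`r` in a finite nonempty set) circuits none of which accepts weights
in `{2, 3, 4, 5}` for which some edge is not a shortest path, such that all weights in `{2, 3, 4, 5}`
for which all edges are shortest paths are accepted by at least a
`2 ^ (- ⌊n / 2 ^ (60 (k + 3))⌋)` fraction of them. If in each `U r` the formal degrees in the last bits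
of the weights of the pairs `{u, v}` sum up to at most `k n`, then some `U r` has `g` gates with
`n ≤ 2 ^ (60 (k + 3)) (⌊log₂ g⌋ + 1)`.

2. If a circuit accepts, among the weights in `{2, 3, 4, 5}`, exactly those for which all edges are
shortest paths, and its formal degrees in the last bits of all weights sum up to at most `k n ^ 2`,
then it has `g` gates with `n ≤ 2 ^ (60 (2 k + 3)) (⌊log₂ g⌋ + 1)`. -/
theorem result (k n w : ℕ) (hw : 2 ≤ w) :
    (∀ (u : Fin n) (R : Type) [Fintype R] [Nonempty R] (U : R → Circ (Sym2 (Fin n) × Fin (w + 1))),
      (∀ r x, Valid x → (U r).Val x (U r).out → AllShortest x) →
      (∀ x, Valid x → AllShortest x →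
        Nat.card R ≤ 2 ^ (n / 2 ^ (60 * (k + 3))) * Nat.card {r // (U r).Val x (U r).out}) →
      (∀ r, ∃ d : (U r).G → Sym2 (Fin n) × Fin (w + 1) → ℕ, IsDeg (U r) id d ∧
        ∑ v, d (U r).out (s(u, v), 0) ≤ k * n) →
      ∃ r, n ≤ 2 ^ (60 * (k + 3)) * (Nat.log 2 (Fintype.card (U r).G) + 1)) ∧
    ∀ U : Circ (Sym2 (Fin n) × Fin (w + 1)),
      (∀ x, Valid x → (U.Val x U.out ↔ AllShortest x)) →
      (∃ d : U.G → Sym2 (Fin n) × Fin (w + 1) → ℕ, IsDeg U id d ∧
        ∑ e, d U.out (e, 0) ≤ k * n ^ 2) →
      n ≤ 2 ^ (60 * (2 * k + 3)) * (Nat.log 2 (Fintype.card U.G) + 1) := by
  have h5 : 5 < 2 ^ (w + 1) := by
    calc 5 < 2 ^ 3 := by norm_num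
      _ ≤ 2 ^ (w + 1) := Nat.pow_le_pow_right (by norm_num) (by omega)
  refine ⟨fun u R _ _ U hU hc hd => ap_vertex k n w h5 u R U (fun r x hx h => ?_)
    (fun x hx h => hc x hx ((allShortest_iff x).2 h)) hd, fun U hU hd =>
    ap_total k n w h5 U (fun x hx => (hU x hx).trans (allShortest_iff x)) hd⟩
  exact (allShortest_iff x).1 (hU r x hx h)

end Pool.Agent.Results.MP_885423_lc.FormalDegree
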