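import Pool.Agent.Q330.SH.Metric

/-!
# Shortest paths: nondeterministic verifiers with slow heads

The weight matrix of a complete directed graph with `m` vertices is stored row by row
(`Metric.word`).  All arcs are shortest paths (the matrix of distances equals the matrix of
weights) if and only if `W u v ≤ W u x + W x v` for all `u, v, x`.  Deciding this is the metricity
problem, to which APSP reduces in subcubic time (Vassilevska Williams and Williams).

The model (`HeadProg` of a starting file): a nonuniform nondeterministic program with `k` two-way
heads; a head moves by at most one cell in a step; there is a finite set of states, and the moves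
are arbitrary relations of the state, the positions of all heads and the numbers under the heads,
so that arbitrary arithmetic with the numbers under the heads is free.  The number of
configurations (states times positions) is at most `2 ^ S`, i.e. `S` bits of memory.

Theorem: let the program certify that all arcs are shortest paths, i.e. for weights in
`{1, 2, 3}` (and 0 on the diagonal), some computation of at most `T` steps accepts if all arcs
are shortest paths, and no computation accepts otherwise.  Then
`m ^ 3 ≤ 600 * k * (S + 1) * (T + m)`.  In particular, to verify (to guess and check, or to
compute) the distances of all pairs needs almost `m ^ 3` steps with polylogarithmic memory and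
polylogarithmically many heads.
-/

set_option autoImplicit false

namespace Pool.Agent.Results.MP_885423_lc.SlowHeads

open Pool.Agent.TH457.HT Pool.Agent.Q330.SH

theorem result (m k : ℕ) (hk : 1 ≤ k) (P : HeadProg ℕ (m * m) k) (T S : ℕ)
    (hS : Fintype.card P.Q * (m * m) ^ k ≤ 2 ^ S)
    (hacc : ∀ W : Fin m → Fin m → ℕ, (∀ u v, W u v ≤ 3 ∧ (W u v = 0 ↔ u = v)) →
      (∀ u v x, W u v ≤ W u x + W x v) → P.AcceptsIn T (Metric.word W))
    (hrej : ∀ W : Fin m → Fin m → ℕ, (∀ u v, W u v ≤ 3 ∧ (W u v = 0 ↔ u = v)) →
      (¬ ∀ u v x, W u v ≤ W u x + W x v) → ¬ P.Accepts (Metric.word W)) :
    m ^ 3 ≤ 600 * k * (S + 1) * (T + m) :=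
  Metric.metric_bound P T S hk hS hacc hrej

end Pool.Agent.Results.MP_885423_lc.SlowHeads
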