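import Pool.Agent.Q329.UX.Pair
import Pool.Agent.H559R9.Bmm

/-!
# Distances in directed graphs with unreliable negated inputs need `n ^ (3 - o(1))` gates

A directed graph with the `3 n` vertices `(i, u)`, `i < 3`, `u < n`, whose arcs have weight one is
given by bits: for all pairs `e` of vertices and all tags `j < K`, the bit of the position `(e, j)`
tells whether there is the arc `e` with the tag `j` (the name of the arc). Only graphs in which each
arc has one tag are considered; the tag has no meaning. The task is a small part of APSP in the case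
that all weights are equal to one: for all ordered pairs `(a, b)` of vertices find out whether
`d(a, b) ≤ 2`.

The model: randomised circuits of AND and OR gates of fan-in two whose inputs are these bits and
their negations, with one output for each pair of vertices (all circuits with AND, OR and NOT gates
can be brought into this form by doubling their size). There is no bound on the depth. A randomised
circuit is a finite nonempty family of circuits from which one is chosen uniformly at random.

Faults: each negated input (the information that there is no arc `e` with the tag `j`) is stuck at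
`0`, independently with probability `1 / D`. The other inputs are reliable.

Result: let `θ < 3`. For all large `n`, all `D` and all `K ≥ D (2 log (3 n) + 4)` the following holds.
If a randomised circuit, for each graph, gives the output `1` for all pairs with `d(a, b) ≤ 2` at the
same time with probability at least `9 / 10` under faults, and gives the output `1` for some pair with
`d(a, b) > 2` with probability at most `1 / 10` without faults, then one of its circuits has at least
`n ^ θ` gates.

So the bound `n ^ (3 - o(1))` of the APSP hypothesis holds in this model for the easiest weights,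
for which fast matrix multiplication solves the problem in time `n ^ ω`: the faster algorithms must
rely on all negated inputs to be correct, although faults are rare (`D` may be large) and the circuit
may repeat and combine its computations in any way.

The proof: an instance of the Boolean matrix product is hidden at random tags; the tags which other
arcs would get are as good as random faulty inputs (`Pool/Agent/Y630`), so all negated inputs that
depend on the instance can be replaced by `0`. For circuits without negations the average-case bound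
`bmm_rand` of the starting development `Pool/Agent/H559R9` is used.
-/

set_option autoImplicit false

namespace Pool.Agent.Results.MP_885423_lc.UnreliableNegations

open Pool.Agent.Q329.UX Finset Filter Pool.Agent.H520R2.NM

/-- The vertices. -/
abbrev Vertex (n : ℕ) : Type := Fin 3 × Fin n

/-- The positions: the arc `e` with the tag `j < K`. -/
abbrev Position (n K : ℕ) : Type := (Vertex n × Vertex n) × Fin K

/-- There is an arc from `a` to `b` in the graph given by the bits `z`. -/
def Arc {n K : ℕ} (z : Position n K → Bool) (a b : Vertex n) : Prop := ∃ j, z ((a, b), j) = true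

/-- Each arc has at most one tag. -/
def Tagged {n K : ℕ} (z : Position n K → Bool) : Prop :=
  ∀ e j j', z (e, j) = true → z (e, j') = true → j = j'

/-- The distance from `a` to `b` is at most two. -/
def Near {n K : ℕ} (z : Position n K → Bool) (a b : Vertex n) : Prop :=
  a = b ∨ Arc z a b ∨ ∃ c, Arc z a c ∧ Arc z c b

/-- A circuit of AND and OR gates whose inputs are the bits of the positions `e` in `E` and their
negations: `(e, true)` stands for the bit of `e` and `(e, false)` for its negation, with an output
wire for each pair of vertices. (`Circuit` and `Wire` are defined in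
`Pool/Agent/H520R2/NMDefs.lean`; there are no arbitrary gates.) -/
structure DistanceCircuit (E : Type) (n : ℕ) where
  N : ℕ
  C : Circuit (E × Bool) N
  out : Vertex n → Vertex n → Wire (E × Bool) N
  pure : C.fanins = []

/-- The output for the pair `(a, b)` is `1` for the values `y` of the literals. -/
def DistanceCircuit.Says {E : Type} {n : ℕ} (C : DistanceCircuit E n) (a b : Vertex n)
    (y : E × Bool → Bool) : Prop :=
  (C.out a b).eval y (C.C.vals y) = true

/-- The family of circuits `C` finds the pairs at distance at most two, in the presence of faults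
with probability `1 / D` (`faultyP`, `accP`: `Pool/Agent/Q329/UX/Gen.lean`). -/
def Tolerates {n K : ℕ} {R : Type} (C : R → DistanceCircuit (Position n K) n) (D : ℕ) : Prop :=
  ∀ z, Tagged z →
    9 / 10 ≤ faultyP (fun ρ y => ∀ a b, Near z a b → (C ρ).Says a b y) D z ∧
      accP (fun ρ y => ∃ a b, ¬ Near z a b ∧ (C ρ).Says a b y) z ≤ 1 / 10

/-- The pair of vertices for a position of the two matrices. -/
def pos (n : ℕ) (e : Fin 2 × Fin n × Fin n) : Vertex n × Vertex n :=
  ((e.1.castSucc, e.2.1), (e.1.succ, e.2.2))

theorem pos_inj (n : ℕ) : Function.Injective (pos n) := by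
  rintro ⟨i, u, v⟩ ⟨i', u', v'⟩ h
  unfold pos at h
  simp only [Prod.mk.injEq] at h
  obtain ⟨⟨h1, h2⟩, h3, h4⟩ := h
  have h5 : i = i' := Fin.castSucc_injective _ h1
  subst h5 h2 h4
  rfl

theorem result (θ : ℝ) (hθ : θ < 3) : ∀ᶠ n : ℕ in atTop, ∀ D : ℕ, 1 ≤ D → ∀ K : ℕ,
    D * (2 * Real.log (3 * n) + 4) ≤ K →
      ∀ (R : Type) [Finite R] [Nonempty R] (C : R → DistanceCircuit (Position n K) n),
        Tolerates C D → ∃ ρ, (n : ℝ) ^ θ ≤ (C ρ).C.size := by
  classical
  obtain ⟨θ', hθ'⟩ : ∃ θ' : ℝ, θ' = max θ (5 / 2) := ⟨_, rfl⟩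
  have h0 : 2 < θ' := lt_of_lt_of_le (b := 5 / 2) (by norm_num) (by rw [hθ']; exact le_max_right _ _)
  have h1 : θ' / 3 + 0 / 2 < 1 := by
    have : θ' < 3 := by rw [hθ']; exact max_lt hθ (by norm_num)
    linarith
  obtain ⟨α, hα, hmain⟩ := Pool.Agent.H559R9.bmm_rand 0 θ' le_rfl h0 h1
  have hsmall : ∀ᶠ n : ℕ in atTop, (n : ℝ) ^ (-α) < 1 / 4 :=
    ((tendsto_rpow_neg_atTop hα).comp tendsto_natCast_atTop_atTop).eventually
      (gt_mem_nhds (show (0 : ℝ) < 1 / 4 by norm_num))
  filter_upwards [hmain, hsmall, eventually_ge_atTop 1] with n hm hms hn1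
  intro D hD K hK R _ _ C hC
  let _ : Fintype R := Fintype.ofFinite R
  obtain ⟨⟨Λ, iΛ, nΛ, x, hmx⟩, -⟩ := hm
  have hnr : (1 : ℝ) ≤ n := by exact_mod_cast hn1
  have hDR : (1 : ℝ) ≤ D := by exact_mod_cast hD
  have hlog : 0 ≤ Real.log (3 * n) := Real.log_nonneg (by linarith)
  have hK0 : 0 < K := by
    have h1 : (0 : ℝ) < K := lt_of_lt_of_le (by positivity) hK
    exact_mod_cast h1
  have : NeZero K := ⟨hK0.ne'⟩
  have : NeZero n := ⟨by omega⟩
  have hcard : (Fintype.card (Fin 2 × Fin n × Fin n) : ℝ) ≤ (3 * (n : ℝ)) ^ 2 := by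
    rw [Fintype.card_prod, Fintype.card_prod, Fintype.card_fin, Fintype.card_fin]
    push_cast
    nlinarith
  have hbad : (Fintype.card (Fin 2 × Fin n × Fin n) : ℝ) *
      (1 - 1 / (D : ℝ)) ^ Fintype.card (Fin K) ≤ 1 / 40 := by
    rw [Fintype.card_fin (n := K)]
    have h2 := Pool.Agent.Y630.TG.places_bad (D := D) (K := K) (n := (3 * (n : ℝ)) ^ 2) (by omega)
      (by positivity) (by rw [Real.log_pow]; push_cast; exact hK)
    have h3 : (0 : ℝ) ≤ (1 - 1 / (D : ℝ)) ^ K := by
      apply pow_nonneg
      rw [sub_nonneg, div_le_one (by linarith)]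
      exact hDR
    exact (mul_le_mul_of_nonneg_right hcard h3).trans h2
  set slot : (Fin 2 × Fin n × Fin n) × Fin K ↪ Position n K :=
    ⟨fun p => (pos n p.1, p.2), by
      rintro ⟨e, j⟩ ⟨e', j'⟩ h
      simp only [Prod.mk.injEq] at h
      rw [pos_inj n h.1, h.2]⟩ with hslot
  have harc : ∀ (y : Fin 2 × Fin n × Fin n → Bool) (τ : Fin 2 × Fin n × Fin n → Fin K)
      (a b : Vertex n), Arc (Pool.Agent.Y630.TF.host slot (fun _ => false) τ y) a b ↔
        ∃ e, y e = true ∧ pos n e = (a, b) := by
    intro y τ a b
    constructor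
    · rintro ⟨j, hj⟩
      rw [Pool.Agent.Y630.TF.host_true] at hj
      rcases hj with hj | ⟨x', h1, h2⟩
      · exact absurd hj (by simp)
      · exact ⟨x', h1, congrArg Prod.fst h2⟩
    · rintro ⟨e, he, hab⟩
      refine ⟨τ e, ?_⟩
      rw [Pool.Agent.Y630.TF.host_true]
      refine Or.inr ⟨e, he, ?_⟩
      show (pos n e, τ e) = _
      rw [hab]
  have hnear : ∀ (y : Fin 2 × Fin n × Fin n → Bool) (τ : Fin 2 × Fin n × Fin n → Fin K)
      (u w : Fin n), Near (Pool.Agent.Y630.TF.host slot (fun _ => false) τ y) (0, u) (2, w) ↔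
        ∃ v, y (0, u, v) = true ∧ y (1, v, w) = true := by
    intro y τ u w
    unfold Near
    constructor
    · rintro (h | h | ⟨c, h1, h2⟩)
      · exact absurd (congrArg Prod.fst h) (show ¬ ((0 : Fin 3) = 2) by decide)
      · obtain ⟨⟨i, a, b⟩, -, h3⟩ := (harc _ _ _ _).mp h
        unfold pos at h3
        simp only [Prod.mk.injEq] at h3
        obtain ⟨⟨h4, -⟩, h5, -⟩ := h3
        exact absurd ⟨h4, h5⟩
          ((show ∀ i : Fin 2, ¬ (i.castSucc = (0 : Fin 3) ∧ i.succ = 2) by decide) i)
      · obtain ⟨⟨i, a, b⟩, h3, h4⟩ := (harc _ _ _ _).mp h1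
        obtain ⟨⟨i', a', b'⟩, h5, h6⟩ := (harc _ _ _ _).mp h2
        unfold pos at h4 h6
        simp only [Prod.mk.injEq] at h4 h6
        obtain ⟨⟨h7, h8⟩, h9⟩ := h4
        obtain ⟨h10, h11, h12⟩ := h6
        have h13 : i = 0 := (show ∀ i : Fin 2, i.castSucc = (0 : Fin 3) → i = 0 by decide) i h7
        have h14 : i' = 1 := (show ∀ i : Fin 2, i.succ = (2 : Fin 3) → i = 1 by decide) i' h11
        subst h13 h14
        rw [← h9] at h10
        simp only [Prod.mk.injEq] at h10
        refine ⟨b, ?_, ?_⟩
        · rw [← h8]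
          exact h3
        · rw [← h12, ← h10.2]
          exact h5
    · rintro ⟨v, h1, h2⟩
      refine Or.inr (Or.inr ⟨(1, v), ?_, ?_⟩)
      · exact (harc _ _ _ _).mpr ⟨(0, u, v), h1, rfl⟩
      · exact (harc _ _ _ _).mpr ⟨(1, v, w), h2, rfl⟩
  have hin : ∀ l (τ : Fin 2 × Fin n × Fin n → Fin K),
      Tagged (Pool.Agent.Y630.TF.host slot (fun _ => false) τ (x l)) := by
    intro l τ e j j' h1 h2
    rw [Pool.Agent.Y630.TF.host_true] at h1 h2
    rcases h1 with h1 | ⟨x1, -, h1⟩
    · exact absurd h1 (by simp)
    rcases h2 with h2 | ⟨x2, -, h2⟩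
    · exact absurd h2 (by simp)
    have e1 : pos n x1 = e := congrArg Prod.fst h1
    have e2 : pos n x2 = e := congrArg Prod.fst h2
    have e3 : τ x1 = j := congrArg Prod.snd h1
    have e4 : τ x2 = j' := congrArg Prod.snd h2
    rw [← e3, ← e4, pos_inj n (e1.trans e2.symm)]
  -- nondecreasing events
  have hsays : ∀ (ρ : R) (a b : Vertex n) (u v : Position n K × Bool → Bool), u ≤ v →
      (C ρ).Says a b u → (C ρ).Says a b v := by
    intro ρ a b u v huv hu
    have h2 := wire_mono ((C ρ).out a b) huv (circuit_mono (C ρ).C (C ρ).pure huv)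
    unfold DistanceCircuit.Says at hu ⊢
    rw [hu] at h2
    exact top_le_iff.mp h2
  obtain ⟨ω, hω⟩ := exists_pair
    (fun l ρ y => ∀ u w : Fin n, (∃ v, x l (0, u, v) = true ∧ x l (1, v, w) = true) →
      (C ρ).Says (0, u) (2, w) y)
    (fun l ρ y => ∃ u w : Fin n, (¬ ∃ v, x l (0, u, v) = true ∧ x l (1, v, w) = true) ∧
      (C ρ).Says (0, u) (2, w) y)
    (fun l ρ u v huv h a b hab => hsays ρ _ _ u v huv (h a b hab))
    (fun l ρ u v huv ⟨a, b, hab, h⟩ => ⟨a, b, hab, hsays ρ _ _ u v huv h⟩)
    (by omega : 0 < D) slot (fun _ => false) hbad x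
    (fun l τ => by
      refine (hC _ (hin l τ)).1.trans ?_
      unfold faultyP
      gcongr
      norm_cast
      refine Nat.card_le_card_of_injective (fun p => ⟨p.1, fun u w h => p.2 _ _ ?_⟩) ?_
      · exact (hnear _ _ _ _).mpr h
      · intro p q hpq
        exact Subtype.ext (congrArg (fun r => r.1) hpq))
    (fun l τ => by
      refine le_trans ?_ (hC _ (hin l τ)).2
      unfold accP
      gcongr
      norm_cast
      refine Nat.card_le_card_of_injective (fun p => ⟨p.1, ?_⟩) ?_
      · obtain ⟨u, w, h1, h2⟩ := p.2
        exact ⟨_, _, fun h => h1 ((hnear _ _ _ _).mp h), h2⟩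
      · intro p q hpq
        exact Subtype.ext (congrArg (fun r => r.1) hpq))
  obtain ⟨σ, cst, hσ⟩ := Pool.Agent.Y630.TR.rlit_lsb slot (fun _ => false) ω.2
  set σ' : Position n K × Bool → (Fin 2 × Fin n × Fin n) ⊕ Bool :=
    fun l => (σ l).elim (Sum.inr (cst l)) Sum.inl with hσ'
  have hsub : ∀ y : Fin 2 × Fin n × Fin n → Bool, (fun l => Sum.elim y id (σ' l)) =
      Pool.Agent.Y630.TF.rlit slot (fun _ => false) ω.2 y := by
    intro y
    rw [hσ y]
    funext l
    show Sum.elim y id ((σ l).elim (Sum.inr (cst l)) Sum.inl) = (σ l).elim (cst l) y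
    cases σ l <;> rfl
  refine ⟨ω.1, ?_⟩
  by_contra hcon
  push Not at hcon
  have h2 := hmx (C ω.1).N (subCircuit σ' (C ω.1).C)
    (fun u w => subWire σ' ((C ω.1).out (0, u) (2, w))) (by
    rw [subCircuit_fanins, (C ω.1).pure]
    simp) (by
    rw [subCircuit_fanins, (C ω.1).pure, subCircuit_size]
    simp only [List.sum_nil, add_zero]
    refine lt_of_lt_of_le hcon (Real.rpow_le_rpow_of_exponent_le hnr ?_)
    rw [hθ']
    exact le_max_left _ _)
  have hΛ : (0 : ℝ) < Fintype.card Λ := by exact_mod_cast Fintype.card_pos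
  have h3 := hω.trans (b := _) (c := (((univ.filter (fun l => ∀ u w : Fin n,
      (subWire σ' ((C ω.1).out (0, u) (2, w))).eval (x l)
        ((subCircuit σ' (C ω.1).C).vals (x l)) = true ↔
        ∃ v, x l (0, u, v) = true ∧ x l (1, v, w) = true)).card : ℕ) : ℝ)) (by
    rw [Nat.card_eq_fintype_card, Fintype.card_subtype]
    norm_cast
    refine Finset.card_le_card fun l hl => ?_
    rw [Finset.mem_filter] at hl ⊢
    refine ⟨Finset.mem_univ _, fun u w => ?_⟩
    rw [subWire_eval, subCircuit_vals, hsub]
    constructor
    · intro h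
      by_contra hno
      exact hl.2.2 ⟨u, w, hno, h⟩
    · intro h
      exact hl.2.1 u w h)
  have h4 := lt_of_le_of_lt h3 h2
  rw [Nat.card_eq_fintype_card] at h4
  nlinarith

end Pool.Agent.Results.MP_885423_lc.UnreliableNegations
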